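import Pool.Agent.Helper54.TD.Defs

/-!
# TD project, module E5: the series for `ℓ = 2` (Euler's identity)
-/

set_option autoImplicit false

namespace Pool.Agent.Helper54.PT.E5aux

open Finset Filter Topology

/-- the coefficients of the series -/
noncomputable def a (j : ℕ) : ℝ := (-1) ^ j * (∏ i ∈ range j, ((4 : ℝ) ^ (i + 1) - 1))⁻¹ * 4 ^ j

theorem a_zero : a 0 = 1 := by simp [a]

theorem P_pos (i : ℕ) : 0 < (4 : ℝ) ^ (i + 1) - 1 := by
  have : (1 : ℝ) < 4 ^ (i + 1) := one_lt_pow₀ (by norm_num) (Nat.succ_ne_zero i)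
  linarith

theorem a_succ (j : ℕ) : a (j + 1) * ((4 : ℝ) ^ (j + 1) - 1) = -4 * a j := by
  unfold a
  rw [Finset.prod_range_succ, mul_inv, pow_succ, pow_succ (4 : ℝ) j]
  have := (P_pos j).ne'
  rw [pow_succ] at this
  field_simp

theorem a_rec (j : ℕ) : a (j + 1) = a (j + 1) * (1 / 4) ^ (j + 1) - a j * (1 / 4) ^ j := by
  have h := a_succ j
  have h4 : ((4 : ℝ) ^ (j + 1)) ≠ 0 := by positivity
  have h1 : (1 / 4 : ℝ) ^ (j + 1) = 1 / 4 ^ (j + 1) := by rw [one_div_pow]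
  have h2 : (1 / 4 : ℝ) ^ j = 4 / 4 ^ (j + 1) := by
    rw [one_div_pow, pow_succ]
    field_simp
  rw [h1, h2]
  field_simp
  linarith

theorem a_bound (j : ℕ) : |a j| ≤ 4 * (1 / 3) ^ j := by
  have hs : ∀ j, |a (j + 1)| = 4 * |a j| / ((4 : ℝ) ^ (j + 1) - 1) := by
    intro j
    have h := congrArg abs (a_succ j)
    rw [abs_mul, abs_of_pos (P_pos j), abs_mul] at h
    rw [eq_div_iff (P_pos j).ne', h]
    norm_num
  rcases j with _ | j
  · rw [a_zero]
    norm_num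
  · induction j with
    | zero =>
      rw [hs, a_zero]
      norm_num
    | succ j ih =>
      rw [hs, div_le_iff₀ (P_pos _)]
      have h1 : (15 : ℝ) ≤ 4 ^ (j + 1 + 1) - 1 := by
        have h2 : (4 : ℝ) ^ 2 ≤ 4 ^ (j + 1 + 1) :=
          pow_le_pow_right₀ (by norm_num) (by omega)
        linarith
      have h3 : 0 < (1 / 3 : ℝ) ^ (j + 1) := by positivity
      rw [pow_succ (1 / 3 : ℝ) (j + 1)]
      nlinarith

/-- the partial sums -/
noncomputable def Gp (n : ℕ) (z : ℝ) : ℝ := ∑ j ∈ range n, a j * z ^ j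

theorem Gp_rec (n : ℕ) (z : ℝ) :
    Gp (n + 1) z = (1 - z) * Gp (n + 1) (z / 4) + a n * (1 / 4) ^ n * z ^ (n + 1) := by
  unfold Gp
  induction n with
  | zero => simp [a_zero]
  | succ n ih =>
    rw [Finset.sum_range_succ, ih, Finset.sum_range_succ _ (n + 1)]
    have h := a_rec n
    have h1 : (z / 4) ^ (n + 1) = (1 / 4) ^ (n + 1) * z ^ (n + 1) := by
      rw [div_eq_mul_one_div, mul_comm z, mul_pow]
    rw [h1]
    have h2 : a n * (1 / 4) ^ n = a (n + 1) * (1 / 4) ^ (n + 1) - a (n + 1) := by linarith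
    rw [h2, pow_succ z (n + 1)]
    ring

theorem summ (z : ℝ) (hz : |z| ≤ 1) : Summable fun j => a j * z ^ j := by
  refine Summable.of_norm_bounded (g := fun j => 4 * (1 / 3 : ℝ) ^ j)
    ((summable_geometric_of_lt_one (by norm_num) (by norm_num)).mul_left 4) fun j => ?_
  rw [Real.norm_eq_abs, abs_mul, abs_pow]
  calc |a j| * |z| ^ j ≤ (4 * (1 / 3) ^ j) * 1 :=
        mul_le_mul (a_bound j) (pow_le_one₀ (abs_nonneg _) hz) (by positivity) (by positivity)
    _ = 4 * (1 / 3) ^ j := mul_one _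

/-- the function -/
noncomputable def G (z : ℝ) : ℝ := ∑' j, a j * z ^ j

theorem tend (z : ℝ) (hz : |z| ≤ 1) : Tendsto (fun n => Gp n z) atTop (𝓝 (G z)) :=
  (summ z hz).hasSum.tendsto_sum_nat

theorem abs_quarter {z : ℝ} (hz : |z| ≤ 1) : |z / 4| ≤ 1 := by
  rw [abs_div]
  norm_num
  linarith

theorem G_rec (z : ℝ) (hz : |z| ≤ 1) : G z = (1 - z) * G (z / 4) := by
  have h1 := (tend z hz).comp (tendsto_add_atTop_nat 1)
  have h2 := ((tend (z / 4) (abs_quarter hz)).comp (tendsto_add_atTop_nat 1)).const_mul (1 - z)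
  have h3 : Tendsto (fun n => a n * (1 / 4 : ℝ) ^ n * z ^ (n + 1)) atTop (𝓝 0) := by
    refine squeeze_zero_norm (a := fun n => 4 * (1 / 3 : ℝ) ^ n) (fun n => ?_) ?_
    · rw [Real.norm_eq_abs, abs_mul, abs_mul, abs_pow, abs_pow]
      have h4 : |(1 / 4 : ℝ)| ^ n ≤ 1 := pow_le_one₀ (abs_nonneg _) (by norm_num)
      have h5 : |z| ^ (n + 1) ≤ 1 := pow_le_one₀ (abs_nonneg _) hz
      calc |a n| * |(1 / 4 : ℝ)| ^ n * |z| ^ (n + 1) ≤ (4 * (1 / 3) ^ n) * 1 * 1 := by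
            gcongr
            exact a_bound n
        _ = 4 * (1 / 3) ^ n := by ring
    · have h6 := (tendsto_pow_atTop_nhds_zero_of_lt_one (r := (1 / 3 : ℝ)) (by norm_num)
        (by norm_num)).const_mul 4
      rwa [mul_zero] at h6
  have h4 := h2.add h3
  rw [add_zero] at h4
  refine tendsto_nhds_unique h1 (h4.congr fun n => ?_)
  exact (Gp_rec n z).symm

theorem geo (n : ℕ) : ∑ j ∈ range n, (1 / 3 : ℝ) ^ j = 3 / 2 * (1 - (1 / 3) ^ n) := by
  induction n with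
  | zero => simp
  | succ n ih =>
    rw [Finset.sum_range_succ, ih, pow_succ]
    ring

theorem G_near (z : ℝ) (hz : |z| ≤ 1) : |G z - 1| ≤ 2 * |z| := by
  have h1 := (tend z hz).comp (tendsto_add_atTop_nat 1)
  have h2 := (h1.sub_const 1).abs
  refine le_of_tendsto' h2 fun n => ?_
  show |Gp (n + 1) z - 1| ≤ _
  unfold Gp
  rw [Finset.sum_range_succ', pow_zero, a_zero, mul_one, add_sub_cancel_right]
  refine (Finset.abs_sum_le_sum_abs _ _).trans ?_
  have h3 : ∀ j ∈ range n, |a (j + 1) * z ^ (j + 1)| ≤ 4 / 3 * |z| * (1 / 3) ^ j := by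
    intro j _
    rw [abs_mul, abs_pow, pow_succ |z|]
    have h4 := a_bound (j + 1)
    have h5 : |z| ^ j ≤ 1 := pow_le_one₀ (abs_nonneg _) hz
    calc |a (j + 1)| * (|z| ^ j * |z|) ≤ (4 * (1 / 3) ^ (j + 1)) * (1 * |z|) := by gcongr
      _ = 4 / 3 * |z| * (1 / 3) ^ j := by ring
  refine (Finset.sum_le_sum h3).trans ?_
  rw [← Finset.mul_sum, geo]
  have h6 : (0 : ℝ) < (1 / 3) ^ n := by positivity
  nlinarith [abs_nonneg z]

theorem G_prod (n : ℕ) :
    G (1 / 2) = (∏ i ∈ range n, (1 - (1 / 2 : ℝ) * (1 / 4) ^ i)) * G (1 / 2 * (1 / 4) ^ n) := by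
  induction n with
  | zero => simp
  | succ n ih =>
    have h1 : |(1 / 2 : ℝ) * (1 / 4) ^ n| ≤ 1 := by
      rw [abs_of_nonneg (by positivity)]
      have : (1 / 4 : ℝ) ^ n ≤ 1 := pow_le_one₀ (by norm_num) (by norm_num)
      linarith
    rw [ih, G_rec _ h1, Finset.prod_range_succ, pow_succ]
    rw [show (1 / 2 : ℝ) * (1 / 4) ^ n / 4 = 1 / 2 * ((1 / 4) ^ n * (1 / 4)) by ring]
    ring

theorem factor (i : ℕ) : 1 - (1 / 2 : ℝ) * (1 / 4) ^ i = 1 - ((2 : ℝ) ^ (2 * i + 1))⁻¹ := by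
  rw [pow_succ, pow_mul, mul_inv, one_div_pow]
  norm_num
  ring

theorem mult : Multipliable fun i : ℕ => (1 - (1 / 2 : ℝ) * (1 / 4) ^ i) := by
  have h : Summable fun i : ℕ => ‖-((1 / 2 : ℝ) * (1 / 4) ^ i)‖ := by
    refine Summable.congr ((summable_geometric_of_lt_one (r := (1 / 4 : ℝ)) (by norm_num)
      (by norm_num)).mul_left (1 / 2)) fun i => ?_
    rw [norm_neg, Real.norm_eq_abs, abs_of_nonneg (by positivity)]
  have := multipliable_one_add_of_summable h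
  refine this.congr fun i => ?_
  ring

theorem G_half : G (1 / 2) = ∏' i : ℕ, (1 - (1 / 2 : ℝ) * (1 / 4) ^ i) := by
  have h1 : Tendsto (fun n => ∏ i ∈ range n, (1 - (1 / 2 : ℝ) * (1 / 4) ^ i)) atTop
      (𝓝 (∏' i : ℕ, (1 - (1 / 2 : ℝ) * (1 / 4) ^ i))) := mult.hasProd.tendsto_prod_nat
  have h2 : Tendsto (fun n : ℕ => G (1 / 2 * (1 / 4) ^ n)) atTop (𝓝 1) := by
    rw [tendsto_iff_norm_sub_tendsto_zero]
    refine squeeze_zero (g := fun n : ℕ => 2 * (1 / 4 : ℝ) ^ n) (fun _ => norm_nonneg _)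
      (fun n => ?_) ?_
    · have h3 : (1 / 4 : ℝ) ^ n ≤ 1 := pow_le_one₀ (by norm_num) (by norm_num)
      have h4 : 0 ≤ (1 / 4 : ℝ) ^ n := by positivity
      have h5 : |(1 / 2 : ℝ) * (1 / 4) ^ n| = 1 / 2 * (1 / 4) ^ n :=
        abs_of_nonneg (by positivity)
      have h6 := G_near (1 / 2 * (1 / 4) ^ n) (by rw [h5]; linarith)
      rw [h5] at h6
      rw [Real.norm_eq_abs]
      linarith
    · have h6 := (tendsto_pow_atTop_nhds_zero_of_lt_one (r := (1 / 4 : ℝ)) (by norm_num)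
        (by norm_num)).const_mul 2
      rwa [mul_zero] at h6
  have h3 := h1.mul h2
  rw [mul_one] at h3
  refine tendsto_nhds_unique (tendsto_const_nhds.congr fun n => G_prod n) h3

end Pool.Agent.Helper54.PT.E5aux

namespace Pool.Agent.Helper54.PT

open Finset Filter Topology

/-- E5: the series for `ℓ = 2` -/
theorem series_two :
    Tendsto (fun K : ℕ => ∑ j ∈ range (K + 1),
      (-1 : ℝ) ^ j * (∏ i ∈ range j, ((4 : ℝ) ^ (i + 1) - 1))⁻¹ * 2 ^ j) atTop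
      (𝓝 (∏' i : ℕ, (1 - ((2 : ℝ) ^ (2 * i + 1))⁻¹))) := by
  have h1 := (E5aux.tend (1 / 2) (by rw [abs_of_pos] <;> norm_num)).comp
    (tendsto_add_atTop_nat 1)
  rw [E5aux.G_half, tprod_congr E5aux.factor] at h1
  refine h1.congr fun K => ?_
  show E5aux.Gp (K + 1) (1 / 2) = _
  unfold E5aux.Gp E5aux.a
  refine Finset.sum_congr rfl fun j _ => ?_
  rw [mul_assoc, ← mul_pow]
  norm_num

end Pool.Agent.Helper54.PT
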