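import Pool.Agent.Helper54.TD.Defs

/-!
# TD project, module E6: from the moments to the proportion
-/

set_option autoImplicit false

namespace Pool.Agent.Helper54.PT

open Polynomial Finset Filter Topology

/-- E6: from the moments to the proportion -/
theorem prop_of_moments {α : Type} (S C : ℕ → Finset α) (s : ℕ → α → ℕ) (Q w : ℝ)
    (N : ℕ → ℝ) (hm : ∀ k : ℕ, ∀ ε : ℝ, 0 < ε → ∀ᶠ n : ℕ in atTop,
      |(∑ D ∈ C n, (Q ^ s n D) ^ k) - w * N k * (S n).card| ≤ ε * (S n).card)
    (f : ℝ[X]) (hf : ∀ᶠ n : ℕ in atTop, ∀ D ∈ C n, f.eval (Q ^ s n D) ≤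
      if s n D = 0 then 1 else 0) (ε : ℝ) (hε : 0 < ε) :
    ∀ᶠ n : ℕ in atTop, (w * Lam N f - ε) * (S n).card ≤
      ((C n).filter fun D => s n D = 0).card := by
  set A : ℝ := 1 + ∑ k ∈ range (f.natDegree + 1), |f.coeff k| with hA
  have hA0 : 0 < A := by
    have : 0 ≤ ∑ k ∈ range (f.natDegree + 1), |f.coeff k| :=
      Finset.sum_nonneg fun _ _ => abs_nonneg _
    linarith
  have hev : ∀ᶠ n : ℕ in atTop, ∀ k ∈ range (f.natDegree + 1),
      |(∑ D ∈ C n, (Q ^ s n D) ^ k) - w * N k * (S n).card| ≤ ε / A * (S n).card :=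
    (Filter.eventually_all_finset _).2 fun k _ => hm k (ε / A) (by positivity)
  filter_upwards [hev, hf] with n h1 h2
  have hLam : Lam N f = ∑ k ∈ range (f.natDegree + 1), f.coeff k * N k := by
    unfold Lam
    rw [Polynomial.sum_over_range]
    intro k
    rw [zero_mul]
  have h3 : ∑ D ∈ C n, f.eval (Q ^ s n D) =
      ∑ k ∈ range (f.natDegree + 1), f.coeff k * ∑ D ∈ C n, (Q ^ s n D) ^ k := by
    simp_rw [Polynomial.eval_eq_sum_range, Finset.mul_sum]
    rw [Finset.sum_comm]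
  have h4 : ∑ D ∈ C n, f.eval (Q ^ s n D) ≤ ((C n).filter fun D => s n D = 0).card := by
    refine (Finset.sum_le_sum h2).trans (le_of_eq ?_)
    rw [Finset.sum_boole]
  have h5 : ∀ k ∈ range (f.natDegree + 1),
      f.coeff k * (w * N k * (S n).card) - |f.coeff k| * (ε / A * (S n).card) ≤
        f.coeff k * ∑ D ∈ C n, (Q ^ s n D) ^ k := by
    intro k hk
    have h6 := h1 k hk
    have h7 : |f.coeff k * ((∑ D ∈ C n, (Q ^ s n D) ^ k) - w * N k * (S n).card)| ≤
        |f.coeff k| * (ε / A * (S n).card) := by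
      rw [abs_mul]
      exact mul_le_mul_of_nonneg_left h6 (abs_nonneg _)
    have h8 := (abs_le.1 h7).1
    rw [mul_sub] at h8
    linarith
  have h6 := Finset.sum_le_sum h5
  rw [← h3, Finset.sum_sub_distrib, ← Finset.sum_mul] at h6
  have h7 : ∑ k ∈ range (f.natDegree + 1), f.coeff k * (w * N k * (S n).card) =
      w * Lam N f * (S n).card := by
    rw [hLam, Finset.mul_sum, Finset.sum_mul]
    exact Finset.sum_congr rfl fun k _ => by ring
  have h8 : (∑ k ∈ range (f.natDegree + 1), |f.coeff k|) * (ε / A * (S n).card) ≤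
      ε * (S n).card := by
    have h9 : (∑ k ∈ range (f.natDegree + 1), |f.coeff k|) * (ε / A) ≤ ε := by
      rw [← mul_div_assoc, div_le_iff₀ hA0]
      nlinarith
    calc (∑ k ∈ range (f.natDegree + 1), |f.coeff k|) * (ε / A * (S n).card)
        = ((∑ k ∈ range (f.natDegree + 1), |f.coeff k|) * (ε / A)) * (S n).card := by ring
      _ ≤ ε * (S n).card := mul_le_mul_of_nonneg_right h9 (Nat.cast_nonneg _)
  rw [h7] at h6
  rw [sub_mul]
  linarith

end Pool.Agent.Helper54.PT
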