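import Pool.Agent.Helper54.TD.Defs
import Pool.Agent.Helper75.TW.B16

/-!
# TD project, module E7: the number of elements of the formal Selmer groups
-/

set_option autoImplicit false

namespace Pool.Agent.Helper54.PT

open Finset

/-- E7: the number of elements of the formal Selmer groups -/
theorem card_GD_eq {ℓ : ℕ} [Fact ℓ.Prime] {σ : Type} [Fintype σ] [DecidableEq σ] (X : PData ℓ σ)
    {J : Type} [Fintype J] [DecidableEq J] (τ : (J → ZMod ℓ) →+ (J → Option σ → ZMod ℓ))
    (H : (Option σ → J → ZMod ℓ) → (Option σ → J → ZMod ℓ) → (Option σ → ZMod ℓ) → Prop)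
    (D : Finset X.P) (hD : D.Nonempty)
    (hsub : ∀ x ∈ GD X τ H D, ∀ y ∈ GD X τ H D, x + y ∈ GD X τ H D)
    (htor : ∀ v : J → ZMod ℓ, tor X τ D v ∈ GD X τ H D) :
    ∃ s : ℕ, (GD X τ H D).card = ℓ ^ (Fintype.card J + s) ∧
      (s = 0 → ∀ x ∈ GD X τ H D, ∃ v, x = tor X τ D v) := by
  classical
  have hℓ : 1 < ℓ := (Fact.out : ℓ.Prime).one_lt
  have h0 : (0 : (Option σ → J → ZMod ℓ) × (D → J → ZMod ℓ)) ∈ GD X τ H D := by
    have := htor 0
    have e : tor X τ D (0 : J → ZMod ℓ) = 0 := by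
      have := b16_tor_smul X τ D (0 : ZMod ℓ) (0 : J → ZMod ℓ)
      rwa [zero_smul, zero_smul] at this
    rwa [e] at this
  let W : Submodule (ZMod ℓ) ((Option σ → J → ZMod ℓ) × (D → J → ZMod ℓ)) :=
    { carrier := {x | x ∈ GD X τ H D}
      zero_mem' := h0
      add_mem' := fun {x y} hx hy => hsub x hx y hy
      smul_mem' := fun c x hx => b16_smul X τ H D hsub h0 c x hx }
  have hcard : Nat.card W = (GD X τ H D).card := by
    have e : Nat.card W = Nat.card {x // x ∈ GD X τ H D} := rfl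
    rw [e, Nat.card_eq_fintype_card, Fintype.card_coe]
  have hpow : Nat.card W = ℓ ^ Module.finrank (ZMod ℓ) W := by
    have := Module.natCard_eq_pow_finrank (K := ZMod ℓ) (V := W)
    rwa [Nat.card_zmod] at this
  have himg : ℓ ^ Fintype.card J ≤ (GD X τ H D).card := (b16_card X τ H D hD hsub htor).1
  have hle : Fintype.card J ≤ Module.finrank (ZMod ℓ) W := by
    rw [← hcard, hpow] at himg
    exact (Nat.pow_le_pow_iff_right hℓ).1 himg
  obtain ⟨s, hs⟩ := Nat.exists_eq_add_of_le hle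
  refine ⟨s, by rw [← hcard, hpow, hs], fun hs0 => ?_⟩
  by_contra hcon
  have h1 := (b16_card X τ H D hD hsub htor).2 hcon
  rw [← hcard, hpow, hs, hs0, add_zero] at h1
  have h2 := (Nat.pow_le_pow_iff_right hℓ).1 h1
  omega

end Pool.Agent.Helper54.PT
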